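import Pool.Agent.H51.K4S.Fin

set_option autoImplicit false

namespace Pool.Agent.Results.MP_aa1039_co.LogarithmicGain

open Pool.Agent.H51.K4S

/-- `R(K_4^*, K_n) <= C (n / log n)^(5/2)` for all `n >= 2`. -/
theorem result : ∃ C : ℝ, ∀ n : ℕ, 2 ≤ n → ∃ N : ℕ,
    IsRamseyNumber K4star (SimpleGraph.completeGraph (Fin n)) N ∧
      (N : ℝ) ≤ C * ((n : ℝ) / Real.log n) ^ (5 / 2 : ℝ) :=
  main

end Pool.Agent.Results.MP_aa1039_co.LogarithmicGain
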